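import Pool.Agent.Q212.GameAbs2

/-!
# `MP_cb406a_lc`, Q1: no such space exists

*Assume that `0^sharp` exists (or PFA). Is there a space `(X, τ) ∈ L` and a point `x` such that in
`L` player II has a winning strategy in the strong countable fan tightness game at `x` while in `V`
II has no winning strategy in the game for the topology generated by `τ`?*

No, under no hypothesis: the existence of a winning strategy of II is upward absolute between
transitive models of ZFC. Let `σ ∈ L` be a winning strategy. For each position `s` of moves in `L`
the set of those points of `X` which are not answers of `σ` to a move after `s` is not a legal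
move, so each move of player I in `V` contains the answer of `σ` to some move in `L`. This gives a
strategy in `V` in which II simulates a run of the game of `L`, move by move. The run as
a whole need not be in `L`; but for each open set `O ∈ τ` with `x ∈ O` the tree of the positions of
`L` at which `σ` has always answered with points outside `O` belongs to `L` and has no infinite
branch in `L`, so it has none in `V` by the absoluteness of well-foundedness.

Everything takes place inside the type `ZFSet.{0}` of all sets. `IsZFC V` (in
`Pool.Agent.W868.Defs`) says that `V` is a transitive model of ZFC, for example the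
class of all sets; `Lof V` (in `Pool.Agent.Q212.GameAbs2`) is the constructible universe of `V`, the
union of the levels `LA ∅ α` (in `Pool.Agent.Y588.SDefs`) for the ordinals `α` of `V`.
-/

set_option autoImplicit false

namespace Pool.Agent.Results.MP_cb406a_lc.UpwardAbsolute

open Pool.Agent.W868 Pool.Agent.Q212.GA

/-- **Main theorem.** Let `V` be any transitive model of ZFC, for example the class of all sets. Its
constructible universe `Lof V` is a transitive model of ZFC contained in `V`. If `(X, τ)` is a
topological space in `Lof V`, if `x ∈ X` and if, in `Lof V`, player II has a winning strategy in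
the strong countable fan tightness game at `x`, then, in `V`, player II has a winning
strategy in the game at `x` for the topology generated by `τ`. The same holds for all transitive
models `M ⊆ V` of ZFC in place of `Lof V`. -/
theorem result : IsZFC (Set.univ : Set ZFSet.{0}) ∧
    ∀ V : Set ZFSet.{0}, IsZFC V → (IsZFC (Lof V) ∧ Lof V ⊆ V) ∧
      (∀ X τ x : ZFSet.{0}, IsTop (Lof V) X τ → x ∈ X →
        WinsSCFT (Lof V) X τ x → WinsSCFT V X τ x) ∧
      ∀ M : Set ZFSet.{0}, IsZFC M → M ⊆ V → ∀ X τ x : ZFSet.{0}, IsTop M X τ → x ∈ X →
        WinsSCFT M X τ x → WinsSCFT V X τ x := by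
  have h : ∀ M V : Set ZFSet.{0}, IsZFC M → IsZFC V → M ⊆ V → ∀ X τ x : ZFSet.{0}, IsTop M X τ →
      x ∈ X → WinsSCFT M X τ x → WinsSCFT V X τ x := fun M V hM hV hMV X τ x hT hx hw =>
    scft_up hM hV hMV hT.carrier hT.opens hT.sub hx hw
  refine ⟨isZFC_univ, fun V hV => ⟨⟨isZFC_Lof hV.toIsZF, Lof_subset hV.toIsZF⟩, ?_, ?_⟩⟩
  · exact h _ _ (isZFC_Lof hV.toIsZF) hV (Lof_subset hV.toIsZF)
  · exact fun M hM hMV => h M V hM hV hMV

end Pool.Agent.Results.MP_cb406a_lc.UpwardAbsolute
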